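import Pool.Agent.H9.CD.Stmt
import Pool.Agent.H85.UC3
import Pool.Agent.H8.CDW.Main

/-!
# From the definitions of the statement to those of the proof
-/

namespace Pool.Agent.H9.CD

open Finset

theorem simp_iff {V : Type} (M : CoxeterMatrix V) (σ : Finset V) :
    Simp M σ ↔ (Pool.H8.CDW.nerve M).IsClique (↑σ : Set V) := by
  constructor
  · intro h u hu v hv huv
    exact ⟨huv, h u hu v hv⟩
  · intro h u hu v hv
    by_cases huv : u = v
    · subst huv
      rw [M.diagonal]
      exact one_ne_zero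
    · exact (h hu hv huv).2

theorem card_coxGroup {V : Type} (M : CoxeterMatrix V) (σ : Finset V) :
    Nat.card (CoxGroup M σ) = Nat.card (Pool.H8.CDW.resM M (↑σ : Set V)).Group := rfl

theorem finite_coxGroup {V : Type} (M : CoxeterMatrix V) (σ : Finset V)
    (h : Finite (CoxGroup M σ)) : Finite (Pool.H8.CDW.resM M (↑σ : Set V)).Group := h

theorem omega_eq {V : Type} [Fintype V] (M : CoxeterMatrix V) :
    omega M = Pool.H8.CDW.omegaW M := by
  classical
  unfold omega Pool.H8.CDW.omegaW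
  refine Finset.sum_congr ?_ (fun σ _ => by rw [card_coxGroup])
  ext σ
  simp only [mem_filter, mem_univ, true_and]
  exact simp_iff M σ

section Sph

variable {V : Type} [Fintype V] [LinearOrder V]

theorem bdry_eq (c : Finset V → ℤ) (ρ : Finset V) :
    bdry c ρ = Pool.Agent.H85.UC.bd c ρ := rfl

theorem ghs_of (M : CoxeterMatrix V) (d : ℕ) (h : HomologySphere (Simp M) d) :
    Pool.Agent.H85.UC.GHS ℤ (Pool.Agent.H85.UC.cl (Pool.H8.CDW.nerve M)) d := by
  have e : (Pool.Agent.H85.UC.cl (Pool.H8.CDW.nerve M)) = Simp M := by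
    funext σ
    exact propext (simp_iff M σ).symm
  rw [e]
  exact
  { cpx := ⟨fun u hu => absurd hu (Finset.notMem_empty u),
      fun σ τ hσ hτ u hu v hv => hσ u (hτ hu) v (hτ hv)⟩
    dim := h.dim
    acyc := h.acyc
    top := by
      intro τ hτ
      obtain ⟨z, h1, h2, h3, h4⟩ := h.top τ hτ
      refine ⟨z, h1, h2, ?_, h4⟩
      intro n hn
      by_contra hne
      apply h3
      funext ρ
      have := congrFun hn ρ
      simp only [Pi.smul_apply, smul_eq_mul, Pi.zero_apply, mul_eq_zero] at this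
      exact this.resolve_left hne }

theorem sphere_of (M : CoxeterMatrix V) (d : ℕ) (h : HomologySphere (Simp M) d) :
    Pool.H8.CDW.Sphere (Pool.H8.CDW.nerve M) d :=
  Pool.Agent.H85.UC.sphere_of_ghs (Pool.Agent.H85.UC.GHS.mod_two (ghs_of M d h))

end Sph

/-- The final theorem, from the right-angled one. -/
theorem weighted_of
    (RA : ∀ (V : Type) [Fintype V] [DecidableEq V] (G : SimpleGraph V) (n : ℕ),
      Pool.H8.CDW.Sphere G (2 * n) → 0 ≤ (-1 : ℚ) ^ n * Pool.H8.CDW.kap G ∅)
    (V : Type) [Fintype V] [LinearOrder V] (M : CoxeterMatrix V) (n : ℕ)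
    (hfin : ∀ σ : Finset V, Simp M σ → Finite (CoxGroup M σ))
    (hS : HomologySphere (Simp M) (2 * n)) : 0 ≤ (-1 : ℚ) ^ n * omega M := by
  rw [omega_eq]
  exact Pool.H8.CDW.weighted RA M n
    (fun σ hσ => finite_coxGroup M σ (hfin σ ((simp_iff M σ).2 hσ))) (sphere_of M _ hS)

end Pool.Agent.H9.CD
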