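import Mathlib

/-!
# The flag complex inequality with Coxeter edge weights: definitions

A flag complex with edge weights on the finite vertex set `V` is a Coxeter matrix `M` on `V`:
`M u v` is the weight `m_uv` (at least `2` for `u ≠ v`), where the value `0` stands for infinity.
Its simplices are the finite sets `σ` of pairwise incident vertices (`M u v ≠ 0`), see `Simp`;
the empty set is one of them.
-/

namespace Pool.Agent.H9.CD

open Finset

/-- `σ` is a simplex of the flag complex of `M`: any two of its vertices are incident. -/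
def Simp {V : Type} (M : CoxeterMatrix V) (σ : Finset V) : Prop :=
  ∀ u ∈ σ, ∀ v ∈ σ, M u v ≠ 0

/-- The Coxeter matrix `M` restricted to the vertices of `σ`. -/
def restr {V : Type} (M : CoxeterMatrix V) (σ : Finset V) : CoxeterMatrix {v // v ∈ σ} where
  M := fun u v => M u.1 v.1
  isSymm := by
    ext u v
    exact M.symmetric _ _
  diagonal u := M.diagonal _
  off_diagonal u v h := M.off_diagonal _ _ (fun e => h (Subtype.ext e))

/-- The Coxeter group `W_σ`: generators `s_v`, `v ∈ σ`, relations `s_v ^ 2 = 1` and
`(s_u s_v) ^ (m_uv) = 1`. -/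
abbrev CoxGroup {V : Type} (M : CoxeterMatrix V) (σ : Finset V) : Type := (restr M σ).Group

open Classical in
/-- `ω(S) = ∑ (-1)^(dim σ + 1) / #W_σ`, over all simplices `σ`, the empty one included. -/
noncomputable def omega {V : Type} [Fintype V] (M : CoxeterMatrix V) : ℚ :=
  ∑ σ ∈ univ.filter (fun σ : Finset V => Simp M σ),
    (-1 : ℚ) ^ σ.card / (Nat.card (CoxGroup M σ) : ℚ)

/-! ## integral simplicial homology of links, homology spheres -/

variable {V : Type} [Fintype V] [LinearOrder V]

/-- The sign with which the vertex `v` is inserted in `ρ`: `(-1)^(number of elements of ρ below v)`. -/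
def sgn (v : V) (ρ : Finset V) : ℤ := (-1) ^ (ρ.filter (fun w => w < v)).card

/-- The simplicial boundary of the integral chain `c`: its coefficient at `ρ` is the sum of
`± c (ρ ∪ {v})` over the vertices `v` outside `ρ`. The empty simplex is included, so that homology
is reduced homology. -/
def bdry (c : Finset V → ℤ) (ρ : Finset V) : ℤ := ∑ v ∈ ρᶜ, sgn v ρ * c (insert v ρ)

/-- `c` is a chain of the link of `τ` in the complex `Δ`, on the simplices with `p` vertices. -/
def LinkChain (Δ : Finset V → Prop) (τ : Finset V) (p : ℕ) (c : Finset V → ℤ) : Prop :=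
  ∀ ρ, c ρ ≠ 0 → ρ.card = p ∧ Disjoint ρ τ ∧ Δ (ρ ∪ τ)

/-- The simplicial complex `Δ` is a generalized homology sphere of dimension `d - 1`: for every
simplex `τ`, the empty one included, the link of `τ` has the reduced integral homology of a sphere
of dimension `d - |τ| - 1`: every cycle of lower dimension is a boundary, and in this top dimension
the cycles are the integral multiples of one nonzero cycle (there are no boundaries). -/
structure HomologySphere (Δ : Finset V → Prop) (d : ℕ) : Prop where
  dim : ∀ σ, Δ σ → σ.card ≤ d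
  acyc : ∀ τ, Δ τ → ∀ p, p + τ.card < d → ∀ c : Finset V → ℤ, LinkChain Δ τ p c →
    (∀ ρ, bdry c ρ = 0) → ∃ b : Finset V → ℤ, LinkChain Δ τ (p + 1) b ∧ ∀ ρ, bdry b ρ = c ρ
  top : ∀ τ, Δ τ → ∃ z : Finset V → ℤ, LinkChain Δ τ (d - τ.card) z ∧ (∀ ρ, bdry z ρ = 0) ∧
    z ≠ 0 ∧
    ∀ c : Finset V → ℤ, LinkChain Δ τ (d - τ.card) c → (∀ ρ, bdry c ρ = 0) → ∃ m : ℤ, c = m • z

end Pool.Agent.H9.CD
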